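import Pool.Prelude.Def_F_9cf4a76a

set_option autoImplicit false

/-!
# An upper bound for the number of pair sums in the sequence of Rosen (MP_91e769_nt)
-/

namespace Pool.Agent.Superseded.MP_91e769_nt.UpperBound

open Finset Ne729cbcb

/-! ### Basic facts about the sequence -/

lemma aux_succ (k i : ℕ) (h : i ≠ k + 2) : rosenAux (k + 1) i = rosenAux k i := by
  simp only [rosenAux]
  rw [if_neg h]

lemma aux_eq (k i : ℕ) (h : i ≤ k + 1) : rosenAux k i = rosen i := by
  rcases Nat.lt_or_ge k i with hk | hk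
  · have hi : i = k + 1 := by omega
    subst hi
    unfold rosen
    rw [aux_succ k (k + 1) (by omega)]
  · induction k, hk using Nat.le_induction with
    | base => rfl
    | succ k hk ih => rw [aux_succ k i (by omega)]; exact ih (by omega)

lemma rosen_zero : rosen 0 = 0 := by simp [rosen, rosenAux]

lemma rosen_one : rosen 1 = 1 := by
  rw [← aux_eq 0 1 le_rfl]
  simp [rosenAux]

lemma pc_congr (f g : ℕ → ℕ) (m n : ℕ) (h : ∀ i, i ≤ m → f i = g i) :
    pairCount f m n = pairCount g m n := by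
  unfold pairCount
  congr 1
  apply Finset.filter_congr
  rintro ⟨i, j⟩ hij
  rw [Finset.mem_product, Finset.mem_range, Finset.mem_range] at hij
  simp only at hij ⊢
  rw [h i (by omega), h j (by omega)]

lemma rosen_rec (k : ℕ) : rosen (k + 2) = sInf {n : ℕ | pairCount rosen (k + 1) n < n} := by
  have h1 : rosen (k + 2) = rosenAux (k + 1) (k + 2) := (aux_eq (k + 1) (k + 2) le_rfl).symm
  rw [h1]
  simp only [rosenAux, if_true]
  congr 1
  ext n
  change pairCount (rosenAux k) (k + 1) n < n ↔ _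
  rw [pc_congr (rosenAux k) rosen (k + 1) n (fun i hi => aux_eq k i hi)]
  rfl

lemma pc_le (f : ℕ → ℕ) (m n : ℕ) : pairCount f m n ≤ (m + 1) * (m + 1) := by
  unfold pairCount
  refine (Finset.card_filter_le _ _).trans ?_
  rw [Finset.card_product, Finset.card_range]

lemma rec_spec (k : ℕ) : pairCount rosen (k + 1) (rosen (k + 2)) < rosen (k + 2) ∧
    ∀ n, n < rosen (k + 2) → n ≤ pairCount rosen (k + 1) n := by
  rw [rosen_rec k]
  have hne : {n : ℕ | pairCount rosen (k + 1) n < n}.Nonempty := by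
    refine ⟨(k + 1 + 1) * (k + 1 + 1) + 1, ?_⟩
    have := pc_le rosen (k + 1) ((k + 1 + 1) * (k + 1 + 1) + 1)
    exact Nat.lt_succ_of_le this
  refine ⟨Nat.sInf_mem hne, fun n hn => ?_⟩
  have := Nat.notMem_of_lt_sInf hn
  exact not_lt.1 this

lemma pc_mono (f : ℕ → ℕ) {m m' n n' : ℕ} (hm : m ≤ m') (hn : n ≤ n') :
    pairCount f m n ≤ pairCount f m' n' := by
  unfold pairCount
  apply Finset.card_le_card
  rintro ⟨i, j⟩ hij
  simp only [Finset.mem_filter, Finset.mem_product, Finset.mem_range] at hij ⊢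
  omega

/-- adding the new element gives one new pair with sum `a_{m+1}` -/
lemma pc_new (m : ℕ) : pairCount rosen m (rosen (m + 1)) + 1 ≤
    pairCount rosen (m + 1) (rosen (m + 1)) := by
  unfold pairCount
  rw [← Finset.card_insert_of_notMem (a := ((0 : ℕ), m + 1))]
  · apply Finset.card_le_card
    intro p hp
    rw [Finset.mem_insert] at hp
    rcases hp with rfl | hp
    · simp only [Finset.mem_filter, Finset.mem_product, Finset.mem_range]
      rw [rosen_zero]
      omega
    · simp only [Finset.mem_filter, Finset.mem_product, Finset.mem_range] at hp ⊢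
      omega
  · simp only [Finset.mem_filter, Finset.mem_product, Finset.mem_range]
    omega

lemma base_ge (m : ℕ) (hm : 1 ≤ m) : ∀ n, n ≤ rosen m → n ≤ pairCount rosen m n := by
  induction m, hm using Nat.le_induction with
  | base =>
    intro n hn
    rw [rosen_one] at hn
    interval_cases n
    · exact Nat.zero_le _
    · have := pc_new 0
      rw [zero_add, rosen_one] at this
      omega
  | succ m hm ih =>
    obtain ⟨k, rfl⟩ : ∃ k, m = k + 1 := ⟨m - 1, by omega⟩
    obtain ⟨s1, s2⟩ := rec_spec k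
    intro n hn
    rcases Nat.lt_or_ge n (rosen (k + 2)) with h | h
    · exact (s2 n h).trans (pc_mono rosen (Nat.le_succ _) le_rfl)
    · have hn' : n = rosen (k + 1 + 1) := le_antisymm hn h
      subst hn'
      have h1 := pc_new (k + 1)
      rcases Nat.eq_zero_or_pos (rosen (k + 1 + 1)) with h0 | h0
      · rw [h0]; exact Nat.zero_le _
      · have h2 := s2 (rosen (k + 1 + 1) - 1) (by
          change rosen (k + 1 + 1) - 1 < rosen (k + 1 + 1)
          omega)
        have h3 := pc_mono rosen (le_refl (k + 1)) (Nat.sub_le (rosen (k + 1 + 1)) 1)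
        omega

lemma lt_succ (m : ℕ) : rosen m < rosen (m + 1) := by
  rcases Nat.eq_zero_or_pos m with rfl | hm
  · rw [zero_add, rosen_zero, rosen_one]; exact Nat.one_pos
  · obtain ⟨k, rfl⟩ : ∃ k, m = k + 1 := ⟨m - 1, by omega⟩
    by_contra h
    have h1 := base_ge (k + 1) hm (rosen (k + 1 + 1)) (not_lt.1 h)
    exact absurd (rec_spec k).1 (not_lt.2 h1)

lemma strictMono : StrictMono rosen := strictMono_nat_of_lt_succ lt_succ

lemma le_a (i : ℕ) : i ≤ rosen i := strictMono.le_apply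

/-- `R(x) ≥ x` -/
lemma R_ge (x : ℕ) : x ≤ solutionCount x := by
  rcases Nat.eq_zero_or_pos x with rfl | hx
  · exact Nat.zero_le _
  have h := base_ge x hx x (le_a x)
  exact h

/-! ### The counting function -/

/-- the number of elements up to `t` -/
noncomputable def N (t : ℕ) : ℕ := sInf {k | t < rosen k}

lemma lt_N {i t : ℕ} : i < N t ↔ rosen i ≤ t := by
  have hne : {k | t < rosen k}.Nonempty := ⟨t + 1, lt_of_lt_of_le (Nat.lt_succ_self t) (le_a _)⟩
  have h1 : t < rosen (N t) := Nat.sInf_mem hne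
  constructor
  · intro h
    have h2 : i < sInf {k | t < rosen k} := h
    exact not_lt.1 (fun hc => Nat.notMem_of_lt_sInf h2 hc)
  · intro h
    by_contra hi
    have := strictMono.monotone (not_lt.1 hi)
    omega

lemma le_iff {i t : ℕ} : N t ≤ i ↔ t < rosen i := by
  rw [← not_lt, lt_N, not_le]

lemma N_mono {s t : ℕ} (h : s ≤ t) : N s ≤ N t := by
  by_contra hc
  have h1 : rosen (N t) ≤ s := lt_N.1 (not_le.1 hc)
  have h2 : t < rosen (N t) := le_iff.1 le_rfl
  omega

lemma N_a (k : ℕ) : N (rosen k) = k + 1 := by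
  apply le_antisymm
  · exact le_iff.2 (lt_succ k)
  · exact lt_N.2 le_rfl

lemma N_pos (t : ℕ) : 0 < N t := lt_N.2 (by rw [rosen_zero]; exact Nat.zero_le _)

lemma N_le (t : ℕ) : N t ≤ t + 1 := le_iff.2 (lt_of_lt_of_le (Nat.lt_succ_self t) (le_a _))

/-- `R(x) + 1` as a sum -/
noncomputable def F (x : ℕ) : ℕ := ∑ j ∈ range (N x), min (j + 1) (N (x - rosen j))

lemma F_eq (x : ℕ) : solutionCount x + 1 = F x := by
  have h1 : solutionCount x = ∑ j ∈ range (x + 1), ((range (x + 1)).filter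
      fun i => i ≤ j ∧ 1 ≤ j ∧ rosen i + rosen j ≤ x).card := by
    unfold solutionCount pairCount
    rw [Finset.card_filter, Finset.sum_product_right]
    apply Finset.sum_congr rfl
    intro j _
    rw [Finset.card_filter]
  have h2 : ∀ j, 1 ≤ j → rosen j ≤ x → ((range (x + 1)).filter
      fun i => i ≤ j ∧ 1 ≤ j ∧ rosen i + rosen j ≤ x) =
      range (min (j + 1) (N (x - rosen j))) := by
    intro j hj hjx
    ext i
    simp only [Finset.mem_filter, Finset.mem_range, lt_min_iff, lt_N]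
    have := le_a i
    have := le_a j
    omega
  have h3 : ∀ j, x < rosen j → ((range (x + 1)).filter
      fun i => i ≤ j ∧ 1 ≤ j ∧ rosen i + rosen j ≤ x) = ∅ := by
    intro j hj
    apply Finset.filter_eq_empty_iff.2
    intro i _ hi
    omega
  have h4 : solutionCount x = ∑ j ∈ range (N x), ((range (x + 1)).filter
      fun i => i ≤ j ∧ 1 ≤ j ∧ rosen i + rosen j ≤ x).card := by
    rw [h1]
    symm
    apply Finset.sum_subset (Finset.range_mono (N_le x))
    intro j _ hj
    rw [Finset.mem_range, not_lt, le_iff] at hj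
    rw [h3 j hj, Finset.card_empty]
  obtain ⟨m, hm⟩ : ∃ m, N x = m + 1 := ⟨N x - 1, by have := N_pos x; omega⟩
  rw [h4]
  unfold F
  rw [hm, Finset.sum_range_succ', Finset.sum_range_succ']
  have h5 : ((range (x + 1)).filter fun i => i ≤ 0 ∧ 1 ≤ 0 ∧ rosen i + rosen 0 ≤ x) = ∅ := by
    apply Finset.filter_eq_empty_iff.2
    intro i _ hi
    omega
  have h6 : min (0 + 1) (N (x - rosen 0)) = 1 := by
    have := N_pos (x - rosen 0)
    omega
  rw [h5, Finset.card_empty, h6, add_zero]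
  congr 1
  apply Finset.sum_congr rfl
  intro j hj
  rw [Finset.mem_range] at hj
  rw [h2 (j + 1) (by omega) (lt_N.1 (by omega)), Finset.card_range]

lemma F_ge (x : ℕ) : x + 1 ≤ F x := by
  rw [← F_eq]
  have := R_ge x
  omega

lemma F_a (k : ℕ) : F (rosen k) = rosen k + 1 := by
  apply le_antisymm _ (F_ge _)
  rw [← F_eq]
  apply Nat.succ_le_succ
  have hsub : ∀ m, solutionCount (rosen (m + 1)) ≤ pairCount rosen m (rosen (m + 1)) + 1 := by
    intro m
    unfold solutionCount pairCount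
    refine (Finset.card_le_card ?_).trans (Finset.card_insert_le ((0 : ℕ), m + 1) _)
    rintro ⟨i, j⟩ hij
    simp only [Finset.mem_filter, Finset.mem_product, Finset.mem_range, Finset.mem_insert,
      Prod.mk.injEq] at hij ⊢
    obtain ⟨_, h1, h2, h3⟩ := hij
    have h4 : rosen j ≤ rosen (m + 1) := by omega
    have h5 : j ≤ m + 1 := strictMono.le_iff_le.1 h4
    rcases Nat.lt_or_ge j (m + 1) with h6 | h6
    · right
      omega
    · left
      have h7 : j = m + 1 := by omega
      subst h7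
      have h8 := le_a i
      omega
  rcases Nat.eq_zero_or_pos k with rfl | hk
  · rw [rosen_zero]
    unfold solutionCount pairCount
    rw [Finset.card_eq_zero.2]
    apply Finset.filter_eq_empty_iff.2
    rintro ⟨i, j⟩ hij
    simp only [Finset.mem_product, Finset.mem_range] at hij ⊢
    omega
  · obtain ⟨m, rfl⟩ : ∃ m, k = m + 1 := ⟨k - 1, by omega⟩
    have h := hsub m
    rcases Nat.eq_zero_or_pos m with rfl | hm
    · rw [zero_add, rosen_one] at h ⊢
      have h9 : pairCount rosen 0 1 = 0 := by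
        unfold pairCount
        rw [Finset.card_eq_zero]
        apply Finset.filter_eq_empty_iff.2
        rintro ⟨i, j⟩ hij
        simp only [Finset.mem_product, Finset.mem_range] at hij ⊢
        omega
      rw [h9] at h
      exact h
    · obtain ⟨l, rfl⟩ : ∃ l, m = l + 1 := ⟨m - 1, by omega⟩
      have h9 := (rec_spec l).1
      have h10 : rosen (l + 2) = rosen (l + 1 + 1) := rfl
      rw [h10] at h9
      omega

/-! ### Combinatorial estimates -/

lemma sum_id (n : ℕ) : 2 * ∑ j ∈ range n, (j + 1) = n * (n + 1) := by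
  induction n with
  | zero => simp
  | succ n ih => rw [Finset.sum_range_succ, mul_add, ih]; ring

lemma L1 (x : ℕ) : 2 * (x + 1) ≤ N x * (N x + 1) := by
  rw [← sum_id]
  have h1 := F_ge x
  have h2 : F x ≤ ∑ j ∈ range (N x), (j + 1) :=
    Finset.sum_le_sum fun j _ => min_le_left _ _
  omega

/-- the pairs with a large element `> t` -/
lemma G1 {k t : ℕ} (h1 : t ≤ rosen k) (h2 : rosen k ≤ 2 * t + 1) :
    (∑ l ∈ Ico (N t) (k + 1), N (rosen k - rosen l)) + t ≤ rosen k := by
  have hN : N t ≤ k + 1 := by rw [← N_a k]; exact N_mono h1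
  have e := F_a k
  have e1 : F (rosen k) = (∑ l ∈ range (N t), min (l + 1) (N (rosen k - rosen l))) +
      ∑ l ∈ Ico (N t) (k + 1), min (l + 1) (N (rosen k - rosen l)) := by
    unfold F
    rw [N_a, Finset.sum_range_add_sum_Ico _ hN]
  have e2 : t + 1 ≤ ∑ l ∈ range (N t), min (l + 1) (N (rosen k - rosen l)) := by
    refine (F_ge t).trans ?_
    unfold F
    apply Finset.sum_le_sum
    intro l _
    exact min_le_min le_rfl (N_mono (Nat.sub_le_sub_right h1 _))
  have e3 : ∑ l ∈ Ico (N t) (k + 1), min (l + 1) (N (rosen k - rosen l)) =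
      ∑ l ∈ Ico (N t) (k + 1), N (rosen k - rosen l) := by
    apply Finset.sum_congr rfl
    intro l hl
    rw [Finset.mem_Ico] at hl
    apply min_eq_right
    have h3 : t < rosen l := le_iff.1 hl.1
    have h4 : N (rosen k - rosen l) ≤ l := le_iff.2 (by omega)
    omega
  omega

lemma sum_rev {X K : ℕ} (h : X ≤ K) :
    2 * ∑ l ∈ Ico X K, (K - l) = (K - X) * (K - X + 1) := by
  rw [← sum_id, Finset.sum_Ico_eq_sum_range]
  rw [← Finset.sum_range_reflect]
  congr 1
  apply Finset.sum_congr rfl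
  intro j hj
  rw [Finset.mem_range] at hj
  omega

lemma PH {k : ℕ} (i : ℕ) : i ≤ k → rosen k ≤ 2 * rosen (k - i) + 1 →
    i * (i + 1) ≤ 2 * (rosen k - rosen (k - i)) ∧ i + 1 ≤ N (rosen k - rosen (k - i)) := by
  induction i using Nat.strong_induction_on with
  | _ i ih =>
  intro hik hu
  have hmono : rosen (k - i) ≤ rosen k := strictMono.monotone (Nat.sub_le _ _)
  have h1 := G1 hmono hu
  rw [N_a] at h1
  have h2 : ∑ l ∈ Ico (k - i + 1) (k + 1), (k + 1 - l) ≤
      ∑ l ∈ Ico (k - i + 1) (k + 1), N (rosen k - rosen l) := by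
    apply Finset.sum_le_sum
    intro l hl
    rw [Finset.mem_Ico] at hl
    have h3 := (ih (k - l) (by omega) (by omega) (by
      rw [show k - (k - l) = l by omega]
      have := strictMono.monotone (show k - i ≤ l by omega)
      omega)).2
    rw [show k - (k - l) = l by omega] at h3
    omega
  have h3 := sum_rev (show k - i + 1 ≤ k + 1 by omega)
  rw [show k + 1 - (k - i + 1) = i by omega] at h3
  have h4 : i * (i + 1) ≤ 2 * (rosen k - rosen (k - i)) := by omega
  refine ⟨h4, ?_⟩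
  by_contra hc
  have h5 : N (rosen k - rosen (k - i)) ≤ i := by omega
  have h6 := L1 (rosen k - rosen (k - i))
  have h7 : N (rosen k - rosen (k - i)) * (N (rosen k - rosen (k - i)) + 1) ≤ i * (i + 1) :=
    Nat.mul_le_mul h5 (by omega)
  omega

lemma P1 {k l : ℕ} (hl : l ≤ k) (hu : rosen k ≤ 2 * rosen l + 1) :
    k + 1 - l ≤ N (rosen k - rosen l) := by
  have := (PH (k := k) (k - l) (by omega) (by rw [show k - (k - l) = l by omega]; exact hu)).2
  rw [show k - (k - l) = l by omega] at this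
  omega

/-- the window bound -/
lemma W1 {s t : ℕ} (h1 : t ≤ s) (h2 : s ≤ 2 * t + 1) :
    (N s - N t) * (N s - N t + 1) ≤ 2 * (s - t) := by
  rcases Nat.lt_or_ge (N t) (N s) with h | h
  · obtain ⟨k, hk⟩ : ∃ k, N s = k + 1 := ⟨N s - 1, by omega⟩
    have h3 : rosen k ≤ s := lt_N.1 (by omega)
    have h4 : t < rosen k := le_iff.1 (by omega)
    have h5 := G1 h4.le (by omega)
    have h6 : ∑ l ∈ Ico (N t) (k + 1), (k + 1 - l) ≤
        ∑ l ∈ Ico (N t) (k + 1), N (rosen k - rosen l) := by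
      apply Finset.sum_le_sum
      intro l hl
      rw [Finset.mem_Ico] at hl
      have h7 : t < rosen l := le_iff.1 hl.1
      exact P1 (by omega) (by omega)
    have h7 := sum_rev (show N t ≤ k + 1 by omega)
    rw [hk]
    omega
  · rw [Nat.sub_eq_zero_of_le h]
    omega

lemma U1 (k : ℕ) : N (rosen k / 2) * (N (rosen k / 2) + 1) +
    (k + 1 - N (rosen k / 2)) * (k + 1 - N (rosen k / 2) + 1) ≤ 2 * (rosen k + 1) := by
  set X := N (rosen k / 2) with hX
  have hXk : X ≤ k + 1 := by rw [← N_a k]; exact N_mono (Nat.div_le_self _ _)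
  have e := F_a k
  have e1 : F (rosen k) = (∑ l ∈ range X, min (l + 1) (N (rosen k - rosen l))) +
      ∑ l ∈ Ico X (k + 1), min (l + 1) (N (rosen k - rosen l)) := by
    unfold F
    rw [N_a, Finset.sum_range_add_sum_Ico _ hXk]
  have e2 : ∑ l ∈ range X, min (l + 1) (N (rosen k - rosen l)) = ∑ l ∈ range X, (l + 1) := by
    apply Finset.sum_congr rfl
    intro l hl
    rw [Finset.mem_range] at hl
    apply min_eq_left
    have h1 : rosen l ≤ rosen k / 2 := lt_N.1 hl
    have h2 : rosen l ≤ rosen k - rosen l := by omega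
    have h3 := N_mono h2
    rw [N_a] at h3
    exact h3
  have e3 : ∑ l ∈ Ico X (k + 1), (k + 1 - l) ≤
      ∑ l ∈ Ico X (k + 1), min (l + 1) (N (rosen k - rosen l)) := by
    apply Finset.sum_le_sum
    intro l hl
    rw [Finset.mem_Ico] at hl
    have h1 : rosen k / 2 < rosen l := le_iff.1 hl.1
    have h2 := P1 (show l ≤ k by omega) (by omega)
    have h3 : N (rosen k - rosen l) ≤ l := le_iff.2 (by omega)
    omega
  have h1 := sum_id X
  have h2 := sum_rev hXk
  omega

lemma V1 (k : ℕ) :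
    (k + 1 - N (rosen k / 2)) * (k + 1 - N (rosen k / 2) + 1) ≤ rosen k + 1 := by
  have h1 := U1 k
  have h2 := L1 (rosen k / 2)
  omega

/-- upper bound for the counting function -/
lemma N_upper (t : ℕ) : N t * (N t + 2) ≤ 4 * t + 4 := by
  obtain ⟨k, hk⟩ : ∃ k, N t = k + 1 := ⟨N t - 1, by have := N_pos t; omega⟩
  have h3 : rosen k ≤ t := lt_N.1 (by omega)
  have h1 := U1 k
  have hXk : N (rosen k / 2) ≤ k + 1 := by
    conv_rhs => rw [← N_a k]
    exact N_mono (Nat.div_le_self _ _)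
  obtain ⟨Y, hY⟩ : ∃ Y, k + 1 = N (rosen k / 2) + Y := ⟨k + 1 - N (rosen k / 2), by omega⟩
  rw [hk]
  rw [show k + 1 - N (rosen k / 2) = Y by omega] at h1
  rw [hY]
  set X := N (rosen k / 2)
  zify at h1 h3 ⊢
  nlinarith [sq_nonneg ((X : ℤ) - Y)]

/-- the pairs with sum in the interval from `u` to `u + h` -/
lemma D1 {k x : ℕ} (hN : N x = k + 1) : F x ≤ F (rosen k) +
    ∑ l ∈ Ico (N (rosen k / 2)) (k + 1), (N (x - rosen l) - N (rosen k - rosen l)) := by
  set X := N (rosen k / 2) with hX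
  have hXk : X ≤ k + 1 := by rw [← N_a k]; exact N_mono (Nat.div_le_self _ _)
  have e1 : ∀ y, N y = k + 1 → F y = (∑ l ∈ range X, min (l + 1) (N (y - rosen l))) +
      ∑ l ∈ Ico X (k + 1), min (l + 1) (N (y - rosen l)) := by
    intro y hy
    unfold F
    rw [hy, Finset.sum_range_add_sum_Ico _ hXk]
  rw [e1 x hN, e1 (rosen k) (N_a k)]
  have e2 : ∑ l ∈ range X, min (l + 1) (N (x - rosen l)) ≤
      ∑ l ∈ range X, min (l + 1) (N (rosen k - rosen l)) := by
    apply Finset.sum_le_sum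
    intro l hl
    rw [Finset.mem_range] at hl
    have h1 : rosen l ≤ rosen k / 2 := lt_N.1 hl
    have h2 : rosen l ≤ rosen k - rosen l := by omega
    have h3 := N_mono h2
    rw [N_a] at h3
    rw [min_eq_left h3]
    exact min_le_left _ _
  have e3 : ∑ l ∈ Ico X (k + 1), min (l + 1) (N (x - rosen l)) ≤
      (∑ l ∈ Ico X (k + 1), min (l + 1) (N (rosen k - rosen l))) +
      ∑ l ∈ Ico X (k + 1), (N (x - rosen l) - N (rosen k - rosen l)) := by
    rw [← Finset.sum_add_distrib]
    apply Finset.sum_le_sum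
    intro l _
    omega
  omega

/-! ### Real estimates -/

lemma N_le_sqrt {t : ℕ} (ht : 1 ≤ t) : (N t : ℝ) ≤ 2 * Real.sqrt t := by
  have h1 := N_upper t
  have h2 : (N t : ℝ) * (N t + 2) ≤ 4 * t + 4 := by exact_mod_cast h1
  have h3 : Real.sqrt t ^ 2 = t := Real.sq_sqrt (Nat.cast_nonneg t)
  have h4 : 1 ≤ Real.sqrt t := Real.one_le_sqrt.2 (by exact_mod_cast ht)
  nlinarith

lemma sqrt_le_N (t : ℕ) : Real.sqrt (2 * t) ≤ N t + 1 / 2 := by
  have h1 := L1 t
  have h2 : (2 : ℝ) * (t + 1) ≤ N t * (N t + 1) := by exact_mod_cast h1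
  apply Real.sqrt_le_iff.2
  constructor
  · positivity
  · nlinarith

/-- the polynomial majorant -/
noncomputable def b (q j : ℝ) : ℝ := 5 / 12 * q - 23 / 25 * j + 13 / 25 * (j ^ 2 / q)

lemma b_nonneg {q j : ℝ} (hq : 0 < q) (hj : 0 ≤ j) : 0 ≤ b q j := by
  have h : b q j = (5 / 12 * q ^ 2 - 23 / 25 * (j * q) + 13 / 25 * j ^ 2) / q := by
    unfold b
    field_simp
  rw [h]
  apply div_nonneg _ hq.le
  nlinarith [sq_nonneg (j - 0.88 * q), mul_nonneg hj hq.le]

lemma maj {q j : ℝ} (hq : 0 < q) (hj : 0 ≤ j) (hjq : j ≤ q) :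
    Real.sqrt 2 * Real.sqrt (j ^ 2 + q ^ 2) - j ≤ q + b q j := by
  rw [← Real.sqrt_mul (by norm_num)]
  have h0 : 0 ≤ q + b q j + j := by
    have := b_nonneg hq hj
    linarith
  have h1 : Real.sqrt (2 * (j ^ 2 + q ^ 2)) ≤ q + b q j + j := by
    apply Real.sqrt_le_iff.2
    refine ⟨h0, ?_⟩
    obtain ⟨z, hz⟩ : ∃ z, j = z * q := ⟨j / q, by field_simp⟩
    have hz0 : 0 ≤ z := by
      by_contra hc
      have : z * q < 0 := mul_neg_of_neg_of_pos (not_le.1 hc) hq
      linarith
    have hz1 : z ≤ 1 := by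
      by_contra hc
      have : 1 * q < z * q := mul_lt_mul_of_pos_right (not_le.1 hc) hq
      linarith
    have h2 : q + b q j + j = q * (17 / 12 + 2 / 25 * z + 13 / 25 * z ^ 2) := by
      unfold b
      rw [hz]
      field_simp
      ring
    rw [h2, hz]
    have h3 : 2 * (1 + z ^ 2) ≤ (17 / 12 + 2 / 25 * z + 13 / 25 * z ^ 2) ^ 2 := by
      nlinarith [sq_nonneg (z - 0.71), sq_nonneg (z * (z - 0.71)), mul_nonneg hz0
        (sq_nonneg (z - 0.71)), sq_nonneg (z ^ 2 - 0.5)]
    calc 2 * ((z * q) ^ 2 + q ^ 2) = q ^ 2 * (2 * (1 + z ^ 2)) := by ring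
      _ ≤ q ^ 2 * (17 / 12 + 2 / 25 * z + 13 / 25 * z ^ 2) ^ 2 := by gcongr
      _ = _ := by ring
  linarith

/-- the function `w ↦ √2 √(w² + q²) - w` decreases for `w ≤ q` -/
lemma dec {q j w : ℝ} (hj : 0 ≤ j) (hjw : j ≤ w) (hwq : w ≤ q) :
    Real.sqrt 2 * Real.sqrt (w ^ 2 + q ^ 2) - w ≤
      Real.sqrt 2 * Real.sqrt (j ^ 2 + q ^ 2) - j := by
  rcases hj.eq_or_lt with rfl | hj0
  · have h1 : Real.sqrt (0 ^ 2 + q ^ 2) = q := by
      rw [zero_pow two_ne_zero, zero_add, Real.sqrt_sq (by linarith)]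
    rw [h1, ← Real.sqrt_mul (by norm_num)]
    have hs : Real.sqrt 2 ^ 2 = 2 := Real.sq_sqrt (by norm_num)
    have hs0 : 0 ≤ Real.sqrt 2 := Real.sqrt_nonneg _
    have h2 : Real.sqrt (2 * (w ^ 2 + q ^ 2)) ≤ Real.sqrt 2 * q + w := by
      apply Real.sqrt_le_iff.2
      refine ⟨add_nonneg (mul_nonneg hs0 (le_trans hjw hwq)) hjw, ?_⟩
      have hs1 : 1 ≤ Real.sqrt 2 := Real.one_le_sqrt.2 (by norm_num)
      have h3 : w * w ≤ Real.sqrt 2 * (q * w) := by
        have : w * w ≤ q * w := mul_le_mul_of_nonneg_right hwq hjw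
        nlinarith [mul_nonneg (le_trans hjw hwq) hjw]
      have h4 : (Real.sqrt 2 * q + w) ^ 2 = Real.sqrt 2 ^ 2 * q ^ 2 +
          2 * (Real.sqrt 2 * (q * w)) + w ^ 2 := by ring
      rw [h4, hs]
      nlinarith
    linarith
  · set A := Real.sqrt (w ^ 2 + q ^ 2) with hA
    set B := Real.sqrt (j ^ 2 + q ^ 2) with hB
    have hs : Real.sqrt 2 ^ 2 = 2 := Real.sq_sqrt (by norm_num)
    have hs0 : 0 < Real.sqrt 2 := Real.sqrt_pos.2 (by norm_num)
    have hA2 : A ^ 2 = w ^ 2 + q ^ 2 := Real.sq_sqrt (by positivity)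
    have hB2 : B ^ 2 = j ^ 2 + q ^ 2 := Real.sq_sqrt (by positivity)
    have hA1 : Real.sqrt 2 * w ≤ A := by
      apply Real.le_sqrt_of_sq_le
      rw [mul_pow, hs]
      nlinarith
    have hB1 : Real.sqrt 2 * j ≤ B := by
      apply Real.le_sqrt_of_sq_le
      rw [mul_pow, hs]
      nlinarith
    have h1 : Real.sqrt 2 * (A - B) * (A + B) ≤ (w - j) * (A + B) := by
      have h2 : Real.sqrt 2 * (A - B) * (A + B) = Real.sqrt 2 * ((w - j) * (w + j)) := by
        calc Real.sqrt 2 * (A - B) * (A + B) = Real.sqrt 2 * (A ^ 2 - B ^ 2) := by ring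
          _ = _ := by rw [hA2, hB2]; ring
      rw [h2]
      calc Real.sqrt 2 * ((w - j) * (w + j)) = (w - j) * (Real.sqrt 2 * w + Real.sqrt 2 * j) := by
            ring
        _ ≤ (w - j) * (A + B) :=
            mul_le_mul_of_nonneg_left (add_le_add hA1 hB1) (by linarith)
    have hpos : 0 < A + B := by
      have : 0 < Real.sqrt 2 * j := mul_pos hs0 hj0
      have : 0 < Real.sqrt 2 * w := mul_pos hs0 (lt_of_lt_of_le hj0 hjw)
      linarith
    have h3 := le_of_mul_le_mul_right h1 hpos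
    linarith

/-- the number of elements in a window -/
lemma term {t h j : ℕ} (hh : 1 ≤ h) (hj : j * (j + 1) ≤ 2 * t) :
    ((N (t + h) - N t : ℕ) : ℝ) ≤ Real.sqrt (2 * h) + 1 / 2 +
      if (j : ℝ) ≤ Real.sqrt (2 * h) then b (Real.sqrt (2 * h)) j else 0 := by
  set q := Real.sqrt (2 * h) with hq
  have hh' : (1 : ℝ) ≤ h := by exact_mod_cast hh
  have hq2 : q ^ 2 = 2 * h := Real.sq_sqrt (by positivity)
  have hq0 : 0 < q := Real.sqrt_pos.2 (by positivity)
  have hif : 0 ≤ (if (j : ℝ) ≤ q then b q j else 0) := by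
    split_ifs
    · exact b_nonneg hq0 (Nat.cast_nonneg j)
    · exact le_rfl
  rcases Nat.lt_or_ge t h with hth | hth
  · have hj2 : (j : ℝ) ^ 2 ≤ 2 * t := by
      have h1 : j * j ≤ 2 * t := le_trans (Nat.mul_le_mul_left j (Nat.le_succ j)) hj
      have h2 : ((j * j : ℕ) : ℝ) ≤ ((2 * t : ℕ) : ℝ) := by exact_mod_cast h1
      push_cast at h2
      nlinarith
    have ht' : (t : ℝ) ≤ h := by exact_mod_cast hth.le
    have hjw : (j : ℝ) ≤ Real.sqrt (2 * t) := Real.le_sqrt_of_sq_le hj2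
    have hwq : Real.sqrt (2 * t) ≤ q := Real.sqrt_le_sqrt (by linarith)
    rw [if_pos (hjw.trans hwq)]
    have h1 := sqrt_le_N t
    have h2 := N_le_sqrt (show 1 ≤ t + h by omega)
    have h3 : ((N (t + h) - N t : ℕ) : ℝ) = (N (t + h) : ℝ) - N t := by
      rw [Nat.cast_sub (N_mono (Nat.le_add_right t h))]
    have h4 := dec (Nat.cast_nonneg j) hjw hwq
    have h5 := maj hq0 (Nat.cast_nonneg j) (hjw.trans hwq)
    have h6 : Real.sqrt 2 * Real.sqrt (Real.sqrt (2 * t) ^ 2 + q ^ 2) =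
        2 * Real.sqrt ((t + h : ℕ) : ℝ) := by
      rw [Real.sq_sqrt (by positivity), hq2, ← mul_add, Real.sqrt_mul (by norm_num), ← mul_assoc,
        Real.mul_self_sqrt (by norm_num)]
      push_cast
      ring
    rw [h6] at h4
    rw [h3]
    linarith
  · have h1 := W1 (show t ≤ t + h by omega) (show t + h ≤ 2 * t + 1 by omega)
    rw [Nat.add_sub_cancel_left] at h1
    have h2 : ((N (t + h) - N t : ℕ) : ℝ) ≤ q := by
      apply Real.le_sqrt_of_sq_le
      have h3 : (N (t + h) - N t) * (N (t + h) - N t) ≤ 2 * h :=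
        le_trans (Nat.mul_le_mul_left _ (Nat.le_succ _)) h1
      have h4 : (((N (t + h) - N t) * (N (t + h) - N t) : ℕ) : ℝ) ≤ ((2 * h : ℕ) : ℝ) := by
        exact_mod_cast h3
      rw [Nat.cast_mul, Nat.cast_mul] at h4
      rw [sq]
      exact_mod_cast h4
    linarith

/-- the sum of the majorants -/
lemma sum_b {q : ℝ} (hq : 1 ≤ q) (Y : ℕ) :
    ∑ j ∈ range Y, (if (j : ℝ) ≤ q then b q j else 0) ≤
      13 / 100 * q ^ 2 + 341 / 300 * q + 13 / 150 := by
  have hq0 : 0 < q := by linarith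
  set m := ⌊q⌋₊ with hm
  have hm1 : (m : ℝ) ≤ q := Nat.floor_le hq0.le
  have hm2 : q < m + 1 := Nat.lt_floor_add_one q
  have hm0 : (0 : ℝ) ≤ m := Nat.cast_nonneg m
  have h1 : ∑ j ∈ range Y, (if (j : ℝ) ≤ q then b q j else 0) ≤
      ∑ j ∈ range (m + 1), b q j := by
    rw [← Finset.sum_filter]
    apply Finset.sum_le_sum_of_subset_of_nonneg
    · intro j hj
      rw [Finset.mem_filter] at hj
      rw [Finset.mem_range]
      have : j ≤ m := Nat.le_floor hj.2
      omega
    · intro j _ _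
      exact b_nonneg hq0 (Nat.cast_nonneg j)
  have h2 : ∀ n : ℕ, ∑ j ∈ range (n + 1), b q j = 5 / 12 * q * (n + 1) -
      23 / 50 * (n * (n + 1)) + 13 / 150 * (n * (n + 1) * (2 * n + 1)) / q := by
    intro n
    induction n with
    | zero => simp [b]
    | succ n ih =>
      rw [Finset.sum_range_succ, ih]
      unfold b
      push_cast
      field_simp
      ring
  rw [h2 m] at h1
  refine h1.trans ?_
  have h3 : (m : ℝ) * (m + 1) * (2 * m + 1) ≤ q * (q + 1) * (2 * q + 1) := by gcongr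
  have h4 : 13 / 150 * ((m : ℝ) * (m + 1) * (2 * m + 1)) / q ≤
      13 / 150 * ((q + 1) * (2 * q + 1)) := by
    rw [div_le_iff₀ hq0]
    nlinarith
  have h5 : (q - 1) * q ≤ (m : ℝ) * (m + 1) := by nlinarith
  have h6 : 5 / 12 * q * ((m : ℝ) + 1) ≤ 5 / 12 * q * (q + 1) := by gcongr
  nlinarith

/-- The number of the index pairs `i ≤ j`, `j ≥ 1`, with `a_i + a_j ≤ x` is at most
10/7 times `x` plus 5 times the square root of `x`. -/
theorem result : ∀ x : ℕ, (solutionCount x : ℝ) ≤ 10 / 7 * x + 5 * Real.sqrt x := by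
  intro x
  obtain ⟨k, hk⟩ : ∃ k, N x = k + 1 := ⟨N x - 1, by have := N_pos x; omega⟩
  have hux : rosen k ≤ x := lt_N.1 (by omega)
  have hFx := F_eq x
  have hFu := F_a k
  set u := rosen k with hu
  obtain ⟨h, hh⟩ : ∃ h, x = u + h := ⟨x - u, by omega⟩
  rcases Nat.eq_zero_or_pos h with h0 | hpos
  · have h1 : solutionCount x = x := by
      rw [h0, add_zero] at hh
      rw [hh] at hFx ⊢
      omega
    rw [h1]
    have h2 : (0 : ℝ) ≤ x := Nat.cast_nonneg x
    have h3 := Real.sqrt_nonneg (x : ℝ)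
    linarith
  set q := Real.sqrt (2 * h) with hq
  have hh' : (1 : ℝ) ≤ h := by exact_mod_cast hpos
  have hq2 : q ^ 2 = 2 * h := Real.sq_sqrt (by positivity)
  have hq1 : 1 ≤ q := Real.one_le_sqrt.2 (by linarith)
  have hD := D1 hk
  rw [← hu] at hD
  set X := N (u / 2) with hX
  have hXk : X ≤ k + 1 := by rw [← N_a k]; exact N_mono (Nat.div_le_self _ _)
  have h1 : ((∑ l ∈ Ico X (k + 1), (N (x - rosen l) - N (u - rosen l)) : ℕ) : ℝ) ≤
      ∑ l ∈ Ico X (k + 1), (q + 1 / 2 + if ((k - l : ℕ) : ℝ) ≤ q then b q (k - l : ℕ) else 0) := by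
    rw [Nat.cast_sum]
    apply Finset.sum_le_sum
    intro l hl
    rw [Finset.mem_Ico] at hl
    have h2 : u / 2 < rosen l := le_iff.1 hl.1
    have h3 : rosen l ≤ u := strictMono.monotone (by omega)
    have h4 := (PH (k := k) (k - l) (by omega) (by
      rw [show k - (k - l) = l by omega, ← hu]
      omega)).1
    rw [show k - (k - l) = l by omega, ← hu] at h4
    have h5 := term (t := u - rosen l) (h := h) (j := k - l) hpos h4
    rw [show u - rosen l + h = x - rosen l by omega] at h5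
    exact h5
  have h2 : ∑ l ∈ Ico X (k + 1), (q + 1 / 2 + if ((k - l : ℕ) : ℝ) ≤ q then
      b q (k - l : ℕ) else 0) = ∑ j ∈ range (k + 1 - X), (q + 1 / 2 +
        if (j : ℝ) ≤ q then b q j else 0) := by
    rw [Finset.sum_Ico_eq_sum_range, ← Finset.sum_range_reflect]
    apply Finset.sum_congr rfl
    intro j hj
    rw [Finset.mem_range] at hj
    have e : k - (X + (k + 1 - X - 1 - j)) = j := by omega
    rw [e]
  rw [h2, Finset.sum_add_distrib, Finset.sum_const, Finset.card_range, nsmul_eq_mul] at h1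
  have h3 := sum_b hq1 (k + 1 - X)
  set Y := k + 1 - X with hY
  have hV := V1 k
  rw [← hu, ← hX, ← hY] at hV
  have hV' : (Y : ℝ) * (Y + 1) ≤ u + 1 := by exact_mod_cast hV
  set r := Real.sqrt u with hr
  have hr2 : r ^ 2 = u := Real.sq_sqrt (Nat.cast_nonneg u)
  have hr0 : 0 ≤ r := Real.sqrt_nonneg _
  have hY0 : (0 : ℝ) ≤ Y := Nat.cast_nonneg Y
  have hYr : (Y : ℝ) ≤ r + 1 := by nlinarith
  have h4 : (solutionCount x : ℝ) ≤ u +
      ((∑ l ∈ Ico X (k + 1), (N (x - rosen l) - N (u - rosen l)) : ℕ) : ℝ) := by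
    have h5 : solutionCount x ≤ u +
        ∑ l ∈ Ico X (k + 1), (N (x - rosen l) - N (u - rosen l)) := by omega
    exact_mod_cast h5
  have h5 : (Y : ℝ) * (q + 1 / 2) ≤ (r + 1) * (q + 1 / 2) := by gcongr
  have hxr : (x : ℝ) = u + h := by rw [hh]; push_cast; ring
  set p := Real.sqrt x with hp
  have hp2 : p ^ 2 = x := Real.sq_sqrt (Nat.cast_nonneg x)
  have hp0 : 0 ≤ p := Real.sqrt_nonneg _
  have hu0 : (0 : ℝ) ≤ u := Nat.cast_nonneg u
  have hrp : r ≤ p := Real.sqrt_le_sqrt (by rw [hxr]; linarith)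
  have hp1 : 1 ≤ p := Real.one_le_sqrt.2 (by rw [hxr]; linarith)
  have hqp : q ≤ 1.415 * p := by
    apply Real.sqrt_le_iff.2
    refine ⟨by positivity, ?_⟩
    rw [mul_pow, hp2, hxr]
    nlinarith
  have h6 : r * q ≤ 3 / 7 * u + 7 / 6 * h := by
    rw [← hr2]
    nlinarith [sq_nonneg (6 * r - 7 * q)]
  rw [hxr]
  nlinarith

end Pool.Agent.Superseded.MP_91e769_nt.UpperBound
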